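import Pool.Agent.KDS.StmtsB

/-!
# Squad KDS, row GLF (helper39)
-/

set_option autoImplicit false

namespace Pool.Agent.KDS.H39

open Polynomial NumberField H58Q Pool.Agent.SZT Pool.Agent.KDT Pool.Agent.KDS

theorem card_Ex2 : (Ex 2).card = 10 := by decide

theorem card_QI (i : ℕ) : Fintype.card (QI i) = 10 ^ i := by
  unfold QI
  rw [Fintype.card_fun, Fintype.card_coe, card_Ex2, Fintype.card_fin]

theorem map_mon {K E : Type} [Field K] [Field E] (φ : K →+* E) (e : Fin 4 → ℕ)
    (u : Fin 4 → K) : φ (mon e u) = mon e (fun l => φ (u l)) := by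
  unfold mon
  rw [map_prod]
  exact Finset.prod_congr rfl (fun l _ => map_pow φ _ _)

theorem map_mat {K E : Type} [Field K] [Field E] (φ : K →+* E) (i : ℕ)
    (u : QI i → ℕ → Fin 4 → K) :
    φ (Matrix.of fun (j q : QI i) => ∏ a : Fin i, mon (q a).1 (u j a)).det =
      (Matrix.of fun (j q : QI i) => ∏ a : Fin i, mon (q a).1 (fun l => φ (u j a l))).det := by
  rw [RingHom.map_det]
  congr 1
  ext j q
  rw [RingHom.mapMatrix_apply, Matrix.map_apply, Matrix.of_apply, Matrix.of_apply, map_prod]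
  exact Finset.prod_congr rfl (fun a _ => map_mon φ _ _)

theorem glf (plf : KDT.PlfStatement) (unt : UntStatement) (dtb : KDT.DtbStatement) :
    GlfStatement := by
  obtain ⟨c2, hc2, hplf⟩ := plf
  refine ⟨c2, hc2, ?_⟩
  intro K _ _ v f i M A B U W hmon hdeg hsq hint hVG hdet
  obtain ⟨Ω, _, w, i', c, hw, hna, hb⟩ := hplf K v f hmon hdeg hsq hint
  set D := (Matrix.of fun (j q : QI i) =>
    ∏ a : Fin i, mon (q a).1 (kum f (A j a) (B j a))).det with hD
  have h1 : i' D = (Matrix.of fun (j q : QI i) =>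
      ∏ a : Fin i, mon (q a).1 (uni c (fun l => i' (kum f (A j a) (B j a) l)))).det := by
    rw [hD, map_mat i' i (fun j a => kum f (A j a) (B j a))]
    exact (unt Ω c i (fun j a l => i' (kum f (A j a) (B j a) l))).symm
  let R : QI i → Fin i → ℝ := fun j a =>
    2 * (Lv v f (A j a) (U j a) M - (1 / 2) * Real.log (v (discr f)) - c2 * Real.log (v 2))
  have h2 : v D ≤ (∏ j : QI i, ∏ a : Fin i, Real.exp (R j a)) * ∏ _e : QI i, (1 : ℝ) := by
    rw [← hw, h1]
    refine (dtb Ω w (QI i) _ (fun j => ∏ a : Fin i, Real.exp (R j a)) (fun _ => 1) ?_ ?_ ?_).2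
      hna
    · intro j
      exact Finset.prod_nonneg (fun a _ => (Real.exp_pos _).le)
    · intro e
      exact zero_le_one
    · intro j q
      rw [Matrix.of_apply, map_prod, mul_one]
      refine Finset.prod_le_prod (fun a _ => w.nonneg _) (fun a _ => ?_)
      obtain ⟨g1, g2⟩ := hVG j a a.isLt.le
      have h3 := hb (A j a) (B j a) (U j a) (W j a) M g1 g2 2 (q a).1 (q a).2
      rw [Nat.cast_ofNat] at h3
      exact h3
  rw [Finset.prod_const_one, mul_one] at h2
  have h3 : 0 < v D := by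
    rw [← hw]
    exact w.pos (by
      rw [Ne, map_eq_zero]
      exact hdet)
  have h4 : (∏ j : QI i, ∏ a : Fin i, Real.exp (R j a)) =
      Real.exp (∑ j : QI i, ∑ a : Fin i, R j a) := by
    rw [Real.exp_sum]
    exact Finset.prod_congr rfl (fun j _ => (Real.exp_sum _ _).symm)
  rw [h4] at h2
  have h5 : Real.log (v D) ≤ ∑ j : QI i, ∑ a : Fin i, R j a := by
    rw [← Real.log_exp (∑ j : QI i, ∑ a : Fin i, R j a)]
    exact Real.log_le_log h3 h2
  refine h5.trans (le_of_eq ?_)
  have h6 : ∀ (j : QI i) (a : Fin i), R j a = 2 * Lv v f (A j a) (U j a) M -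
      (Real.log (v (discr f)) + 2 * c2 * Real.log (v 2)) := by
    intro j a
    simp only [R]
    ring
  simp only [h6, Finset.sum_sub_distrib, Finset.sum_const, Finset.card_univ, card_QI,
    Fintype.card_fin, nsmul_eq_mul, Nat.cast_pow, Nat.cast_ofNat]
  ring

end Pool.Agent.KDS.H39
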